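import Pool.Agent.T9h40.GP.Spec

/-!
# Branches at infinity: `B1`, `B4`, `B5`
-/

open Polynomial Filter Topology Bornology

namespace Pool.Agent.T9h22.GP

open Pool.Agent.T9h40.GP

theorem ne0_ev : ∀ᶠ t : ℂ in cobounded ℂ, t ≠ 0 := by
  have h := eventually_cobounded_le_norm (E := ℂ) 1
  filter_upwards [h] with t ht h0
  rw [h0, norm_zero] at ht
  linarith

/-- A polynomial of degree at most `d` divided by `t^d`. -/
theorem lim_poly (q : ℂ[X]) (d : ℕ) (hd : q.natDegree ≤ d) :
    Tendsto (fun t : ℂ => q.eval t / t ^ d) (cobounded ℂ) (𝓝 (q.coeff d)) := by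
  have hinv : Tendsto (fun t : ℂ => t⁻¹) (cobounded ℂ) (𝓝 0) := tendsto_inv₀_cobounded
  have h1 : Tendsto (fun t : ℂ => ∑ k ∈ Finset.range (d + 1), q.coeff k * (t⁻¹) ^ (d - k))
      (cobounded ℂ) (𝓝 (∑ k ∈ Finset.range (d + 1), q.coeff k * (0:ℂ) ^ (d - k))) := by
    refine tendsto_finsetSum _ fun k _ => ?_
    exact (hinv.pow (d - k)).const_mul _
  have h2 : (∑ k ∈ Finset.range (d + 1), q.coeff k * (0:ℂ) ^ (d - k)) = q.coeff d := by
    rw [Finset.sum_range_succ, Finset.sum_eq_zero, zero_add]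
    · simp
    · intro k hk
      rw [Finset.mem_range] at hk
      rw [zero_pow (by omega), mul_zero]
  rw [h2] at h1
  refine h1.congr' ?_
  filter_upwards [ne0_ev] with t ht
  rw [eval_eq_sum_range' (Nat.lt_succ_of_le hd), Finset.sum_div]
  refine Finset.sum_congr rfl fun k hk => ?_
  rw [Finset.mem_range] at hk
  have : t ^ d = t ^ (d - k) * t ^ k := by
    rw [← pow_add]; congr 1; omega
  rw [this, inv_pow]
  field_simp

/-- The polynomial `P(t, ·)`. -/
noncomputable def sp (P : Polynomial ℂ[X]) (t : ℂ) : ℂ[X] := P.map (evalRingHom t)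

theorem sp_eval (P : Polynomial ℂ[X]) (t s : ℂ) : (sp P t).eval s = evalEval t s P := by
  unfold sp
  exact map_evalRingHom_eval t s P

theorem sp_eval_eval (P : Polynomial ℂ[X]) (A : ℂ[X]) (t : ℂ) :
    evalEval t (A.eval t) P = (P.eval A).eval t := by
  rw [← sp_eval]
  unfold sp
  rw [eval_map, ← coe_evalRingHom, eval₂_at_apply]

variable {n e : ℕ} {P : Polynomial ℂ[X]} {A : Fin n → ℂ[X]}

theorem sp_monic (h : HypP n e P A) (t : ℂ) : (sp P t).Monic := h.monic.map _

theorem sp_deg (h : HypP n e P A) (t : ℂ) : (sp P t).natDegree = n := by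
  unfold sp
  rw [h.monic.natDegree_map, h.deg]

theorem sp_sum (h : HypP n e P A) (t s : ℂ) :
    (sp P t).eval s = ∑ i ∈ Finset.range (n + 1), (P.coeff i).eval t * s ^ i := by
  rw [eval_eq_sum_range' (Nat.lt_succ_of_le (sp_deg h t).le)]
  refine Finset.sum_congr rfl fun i _ => ?_
  unfold sp
  rw [coeff_map, coe_evalRingHom]

theorem wt' (h : HypP n e P A) (i : ℕ) (hi : i ≤ n) : (P.coeff i).natDegree ≤ e * (n - i) := by
  rcases lt_or_eq_of_le hi with h1 | h1
  · exact h.wt i h1
  · have : P.coeff i = 1 := by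
      rw [h1, ← h.deg]; exact h.monic.coeff_natDegree
    rw [this]; simp

/-- `P(t, a(t) t^e) / t^(en)` converges. -/
theorem lim_sp (h : HypP n e P A) (a : ℂ → ℂ) (α : ℂ) (ha : Tendsto a (cobounded ℂ) (𝓝 α)) :
    Tendsto (fun t => (sp P t).eval (a t * t ^ e) / t ^ (e * n)) (cobounded ℂ)
      (𝓝 (∑ i ∈ Finset.range (n + 1), (P.coeff i).coeff (e * (n - i)) * α ^ i)) := by
  have h1 : Tendsto (fun t => ∑ i ∈ Finset.range (n + 1),
      ((P.coeff i).eval t / t ^ (e * (n - i))) * (a t) ^ i) (cobounded ℂ)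
      (𝓝 (∑ i ∈ Finset.range (n + 1), (P.coeff i).coeff (e * (n - i)) * α ^ i)) := by
    refine tendsto_finsetSum _ fun i hi => ?_
    refine Tendsto.mul ?_ (ha.pow i)
    exact lim_poly _ _ (wt' h i (by rw [Finset.mem_range] at hi; omega))
  refine h1.congr' ?_
  filter_upwards [ne0_ev] with t ht
  rw [sp_sum h, Finset.sum_div]
  refine Finset.sum_congr rfl fun i hi => ?_
  rw [Finset.mem_range] at hi
  have : t ^ (e * n) = t ^ (e * (n - i)) * (t ^ e) ^ i := by
    rw [← pow_mul, ← pow_add, ← Nat.mul_add]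
    congr 2; omega
  rw [this, mul_pow]
  have h1 : t ^ (e * (n - i)) ≠ 0 := pow_ne_zero _ ht
  have h2 : (t ^ e) ^ i ≠ 0 := pow_ne_zero _ (pow_ne_zero _ ht)
  field_simp

theorem lim_A (h : HypP n e P A) (l : Fin n) :
    Tendsto (fun t => (A l).eval t / t ^ e) (cobounded ℂ) (𝓝 (A l).leadingCoeff) := by
  have := lim_poly (A l) e (h.degA l).le
  rwa [← h.degA l] at this ⊢

/-- The leading coefficients are roots of the limit polynomial. -/
theorem lim_zero (h : HypP n e P A) (l : Fin n) :
    ∑ i ∈ Finset.range (n + 1), (P.coeff i).coeff (e * (n - i)) * (A l).leadingCoeff ^ i = 0 := by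
  have h1 := lim_sp h _ _ (lim_A h l)
  have hn := h.n2
  have he := h.e1
  have h0 : (P.eval (A l)).natDegree < e * n := by
    refine lt_of_lt_of_le (h.low l) (Nat.mul_le_mul_left _ (by omega))
  have h2 := lim_poly (P.eval (A l)) (e * n) h0.le
  rw [coeff_eq_zero_of_natDegree_lt h0] at h2
  refine tendsto_nhds_unique h1 (h2.congr' ?_)
  filter_upwards [ne0_ev] with t ht
  rw [div_mul_cancel₀ _ (pow_ne_zero _ ht), sp_eval, sp_eval_eval]

theorem lim_small (h : HypP n e P A) (l : Fin n) :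
    Tendsto (fun t => (sp P t).eval ((A l).leadingCoeff * t ^ e) / t ^ (e * n)) (cobounded ℂ)
      (𝓝 0) := by
  have := lim_sp h (fun _ => (A l).leadingCoeff) _ tendsto_const_nhds
  rwa [lim_zero h l] at this

theorem prod_low (z : ℂ) (m : ℝ) (hm : 0 ≤ m) (s : Multiset ℂ) :
    (∀ ρ ∈ s, m ≤ ‖ρ - z‖) → m ^ s.card ≤ ‖(s.map (fun ρ => z - ρ)).prod‖ := by
  induction s using Multiset.induction with
  | empty => intro _; simp
  | cons a s ih =>
    intro h
    rw [Multiset.card_cons, Multiset.map_cons, Multiset.prod_cons, norm_mul, pow_succ, mul_comm]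
    refine mul_le_mul ?_ (ih fun ρ hρ => h ρ (Multiset.mem_cons_of_mem hρ)) (pow_nonneg hm _)
      (norm_nonneg _)
    rw [norm_sub_rev]
    exact h a (Multiset.mem_cons_self a s)

/-- A root near a point where a monic polynomial is small. -/
theorem near_root (q : ℂ[X]) (hq : q.Monic) (hn : 0 < q.natDegree) (z : ℂ) :
    ∃ ρ, q.eval ρ = 0 ∧ ‖ρ - z‖ ^ q.natDegree ≤ ‖q.eval z‖ := by
  have hs : q.Splits := IsAlgClosed.splits q
  have h1 : ∀ s, q.eval s = (q.roots.map (fun ρ => s - ρ)).prod := by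
    intro s
    have := hs.eval_eq_prod_roots (x := s)
    rw [this, hq.leadingCoeff, one_mul]
  have hc : q.roots.card = q.natDegree := hs.natDegree_eq_card_roots.symm
  have hne : q.roots.toFinset.Nonempty := by
    have : 0 < q.roots.card := by omega
    obtain ⟨a, ha⟩ := Multiset.card_pos_iff_exists_mem.1 this
    exact ⟨a, Multiset.mem_toFinset.2 ha⟩
  obtain ⟨ρ, hρ, hmin⟩ := Finset.exists_min_image q.roots.toFinset (fun ρ => ‖ρ - z‖) hne
  refine ⟨ρ, ?_, ?_⟩
  · exact (mem_roots'.1 (Multiset.mem_toFinset.1 hρ)).2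
  · rw [h1 z, ← hc]
    exact prod_low z _ (norm_nonneg _) _ fun r hr => hmin r (Multiset.mem_toFinset.2 hr)

theorem b1 : B1 := by
  intro n e P A h
  have hn := h.n2
  have he := h.e1
  have hex : ∀ (l : Fin n) (t : ℂ), ∃ ρ, (sp P t).eval ρ = 0 ∧
      ‖ρ - (A l).leadingCoeff * t ^ e‖ ^ n ≤ ‖(sp P t).eval ((A l).leadingCoeff * t ^ e)‖ := by
    intro l t
    have := near_root (sp P t) (sp_monic h t) (by rw [sp_deg h]; omega)
      ((A l).leadingCoeff * t ^ e)
    rwa [sp_deg h] at this
  choose y hy0 hy using hex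
  have hlim : ∀ l, Tendsto (fun t => y l t / t ^ e) (cobounded ℂ) (𝓝 (A l).leadingCoeff) := by
    intro l
    rw [tendsto_iff_norm_sub_tendsto_zero]
    have h1 := (lim_small h l).norm
    rw [norm_zero] at h1
    have h2 : Tendsto (fun t => ‖y l t / t ^ e - (A l).leadingCoeff‖ ^ n) (cobounded ℂ) (𝓝 0) := by
      refine squeeze_zero' (Eventually.of_forall fun t => by positivity) ?_ h1
      filter_upwards [ne0_ev] with t ht
      have hte : t ^ e ≠ 0 := pow_ne_zero _ ht
      have h3 : y l t / t ^ e - (A l).leadingCoeff =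
          (y l t - (A l).leadingCoeff * t ^ e) / t ^ e := by
        field_simp
      rw [h3, norm_div, div_pow, norm_div, ← norm_pow (t ^ e) n, ← pow_mul]
      exact div_le_div_of_nonneg_right (hy l t) (norm_nonneg _)
    have h4 := h2.rpow_const (p := ((n : ℝ)⁻¹)) (Or.inr (by positivity))
    rw [Real.zero_rpow (by positivity)] at h4
    refine h4.congr fun t => ?_
    rw [Real.pow_rpow_inv_natCast (norm_nonneg _) (by omega)]
  -- separation
  have hinj : ∀ᶠ t in cobounded ℂ, Function.Injective (fun l => y l t) := by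
    have h1 : ∀ i j : Fin n, i ≠ j → ∀ᶠ t in cobounded ℂ, y i t ≠ y j t := by
      intro i j hij
      have h2 := (hlim i).sub (hlim j)
      have h3 : (A i).leadingCoeff - (A j).leadingCoeff ≠ 0 := by
        intro h0
        exact hij (h.inj (sub_eq_zero.1 h0))
      filter_upwards [h2.eventually_ne h3] with t ht h5
      apply ht
      rw [h5, sub_self]
    have h2 : ∀ᶠ t in cobounded ℂ, ∀ i j : Fin n, i ≠ j → y i t ≠ y j t := by
      rw [eventually_all]; intro i
      rw [eventually_all]; intro j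
      by_cases hij : i = j
      · exact Eventually.of_forall fun t h => absurd hij h
      · filter_upwards [h1 i j hij] with t ht _ using ht
    filter_upwards [h2] with t ht i j hij
    by_contra hne
    exact ht i j hne hij
  rw [← comap_norm_atTop] at hinj
  rw [eventually_comap] at hinj
  obtain ⟨R0, hR0⟩ := eventually_atTop.1 hinj
  refine ⟨max R0 1, y, by positivity, ?_, hlim⟩
  intro t ht s
  have hti : Function.Injective (fun l => y l t) :=
    hR0 ‖t‖ (le_trans (le_max_left _ _) ht.le) t rfl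
  rw [← sp_eval]
  have h1 : sp P t = ∏ j, (X - C (y j t)) := by
    have hd : (∏ j, (X - C (y j t))) ∣ sp P t := by
      refine Finset.prod_dvd_of_coprime ?_ ?_
      · intro i _ j _ hij
        exact pairwise_coprime_X_sub_C hti hij
      · intro i _
        exact dvd_iff_isRoot.2 (hy0 i t)
    have hm : (∏ j, (X - C (y j t))).Monic := monic_prod_of_monic _ _ fun j _ => monic_X_sub_C _
    refine eq_of_monic_of_dvd_of_natDegree_le hm (sp_monic h t) hd ?_
    rw [sp_deg h, natDegree_prod_of_monic _ _ fun j _ => monic_X_sub_C _]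
    simp
  rw [h1, eval_prod]
  simp

end Pool.Agent.T9h22.GP
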