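import Pool.Agent.T9h22.GP.B1

/-!
# Branches at infinity: `B3`
-/

open Polynomial Filter Topology Bornology

namespace Pool.Agent.T9h22.GP

open Pool.Agent.T9h40.GP

theorem b3 : B3 := by
  intro f R e α hR he hα hf hlim
  have hα0 : 0 < ‖α‖ := norm_pos_iff.2 hα
  constructor
  · set g : ℂ → ℂ := fun t => f t / t ^ e - α with hg
    have hg0 : Tendsto g (cobounded ℂ) (𝓝 0) := by
      have := hlim.sub_const α
      rwa [sub_self] at this
    have hgn := hg0.norm
    rw [norm_zero] at hgn
    have hsm : ∀ᶠ t in cobounded ℂ, ‖g t‖ ≤ ‖α‖ / 4 :=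
      (hgn.eventually_lt_const (by positivity : (0:ℝ) < ‖α‖ / 4)).mono fun t ht => ht.le
    rw [← comap_norm_atTop, eventually_comap] at hsm
    obtain ⟨R0, hR0⟩ := eventually_atTop.1 hsm
    have hsm' : ∀ t : ℂ, R0 ≤ ‖t‖ → ‖g t‖ ≤ ‖α‖ / 4 := fun t ht => hR0 ‖t‖ ht t rfl
    refine ⟨2 * max R R0, ?_, ?_⟩
    · have := le_max_left R R0
      linarith
    intro t ht h0
    have ht1 : R < ‖t‖ / 2 := by
      have := le_max_left R R0
      linarith
    have ht2 : R0 ≤ ‖t‖ / 2 := by
      have := le_max_right R R0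
      linarith
    have htp : 0 < ‖t‖ := by linarith
    have ht0 : t ≠ 0 := norm_pos_iff.1 htp
    have hfar : ∀ w ∈ Metric.closedBall t (‖t‖ / 2), ‖t‖ / 2 ≤ ‖w‖ := by
      intro w hw
      rw [Metric.mem_closedBall, dist_eq_norm] at hw
      have h1 : ‖t‖ ≤ ‖w‖ + ‖w - t‖ := by
        have h2 := norm_sub_le w (w - t)
        have h3 : w - (w - t) = t := by ring
        rwa [h3] at h2
      linarith
    have hfd : ∀ w, R < ‖w‖ → DifferentiableAt ℂ f w := by
      intro w hw
      exact hf.differentiableAt ((isOpen_lt continuous_const continuous_norm).mem_nhds hw)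
    have hgd : ∀ w, R < ‖w‖ → DifferentiableAt ℂ g w := by
      intro w hw
      have hw0 : w ≠ 0 := norm_pos_iff.1 (hR.trans hw)
      exact ((hfd w hw).div (differentiableAt_pow e) (pow_ne_zero _ hw0)).sub_const α
    have hcauchy : ‖deriv g t‖ ≤ (‖α‖ / 4) / (‖t‖ / 2) := by
      refine Complex.norm_deriv_le_of_forall_mem_sphere_norm_le (by positivity) ?_ ?_
      · have hd : DifferentiableOn ℂ g (Metric.closedBall t (‖t‖ / 2)) := by
          intro w hw
          exact (hgd w (lt_of_lt_of_le ht1 (hfar w hw))).differentiableWithinAt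
        exact hd.diffContOnCl_ball (Set.Subset.refl _)
      · intro w hw
        exact hsm' w (ht2.trans (hfar w (Metric.sphere_subset_closedBall hw)))
    have htR : R < ‖t‖ := by linarith
    have heq : f =ᶠ[𝓝 t] fun w => w ^ e * (g w + α) := by
      have : ∀ᶠ w in 𝓝 t, w ≠ 0 := eventually_ne_nhds ht0
      filter_upwards [this] with w hw
      simp only [hg]
      have : w ^ e ≠ 0 := pow_ne_zero _ hw
      field_simp
      ring
    have hderiv : deriv f t = (e * t ^ (e - 1)) * (g t + α) + t ^ e * deriv g t := by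
      rw [heq.deriv_eq]
      have h1 : HasDerivAt (fun w : ℂ => w ^ e) (e * t ^ (e - 1)) t := hasDerivAt_pow e t
      have h2 : HasDerivAt (fun w => g w + α) (deriv g t) t :=
        (hgd t htR).hasDerivAt.add_const α
      exact (h1.mul h2).deriv
    rw [h0] at hderiv
    have hte : t ^ e = t ^ (e - 1) * t := by
      rw [← pow_succ]; congr 1; omega
    have h1 : (e : ℂ) * (g t + α) = - (t * deriv g t) := by
      have h2 : t ^ (e - 1) * ((e : ℂ) * (g t + α) + t * deriv g t) = 0 := by
        rw [hte] at hderiv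
        linear_combination -hderiv
      rcases mul_eq_zero.1 h2 with h3 | h3
      · exact absurd h3 (pow_ne_zero _ ht0)
      · linear_combination h3
    have h2 : (e : ℝ) * ‖g t + α‖ = ‖t‖ * ‖deriv g t‖ := by
      have := congrArg norm h1
      rwa [norm_mul, norm_neg, norm_mul, Complex.norm_natCast] at this
    have h3 : ‖t‖ * ‖deriv g t‖ ≤ ‖α‖ / 2 := by
      have := mul_le_mul_of_nonneg_left hcauchy htp.le
      have h4 : ‖t‖ * (‖α‖ / 4 / (‖t‖ / 2)) = ‖α‖ / 2 := by
        field_simp
        ring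
      linarith
    have h4 : 3 / 4 * ‖α‖ ≤ ‖g t + α‖ := by
      have h5 := hsm' t (by linarith)
      have h6 := norm_sub_le (g t + α) (g t)
      have h7 : g t + α - g t = α := by ring
      rw [h7] at h6
      linarith
    have he' : (1:ℝ) ≤ e := by exact_mod_cast he
    nlinarith
  · have h1 : Tendsto (fun t : ℂ => ‖f t / t ^ e‖ * ‖t‖ ^ e) (cobounded ℂ) atTop := by
      refine Tendsto.pos_mul_atTop hα0 hlim.norm ?_
      exact (tendsto_pow_atTop (by omega)).comp tendsto_norm_cobounded_atTop
    refine h1.congr' ?_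
    filter_upwards [ne0_ev] with t ht
    rw [norm_div, norm_pow]
    have : ‖t‖ ^ e ≠ 0 := pow_ne_zero _ (norm_ne_zero_iff.2 ht)
    field_simp

end Pool.Agent.T9h22.GP
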