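import Pool.Agent.T9h22.GP.B1

/-!
# Branches at infinity: `B4`
-/

open Polynomial Filter Topology Bornology

namespace Pool.Agent.T9h22.GP

open Pool.Agent.T9h40.GP

theorem poly_ne (q : ℂ[X]) (hq : q ≠ 0) : ∀ᶠ t : ℂ in cobounded ℂ, q.eval t ≠ 0 := by
  have hfin : {t : ℂ | q.eval t = 0}.Finite := by
    refine (q.roots.toFinset.finite_toSet).subset fun t ht => ?_
    rw [Finset.mem_coe, Multiset.mem_toFinset, mem_roots']
    exact ⟨hq, ht⟩
  have := hfin.isBounded
  rw [isBounded_def] at this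
  filter_upwards [this] with t ht h0
  exact ht h0

theorem b4 : B4 := by
  intro n e P A h R y hR hfac hlim
  have hn := h.n2
  have he := h.e1
  have hne : ∀ᶠ t in cobounded ℂ, ∀ l i, y i t ≠ (A l).eval t := by
    rw [eventually_all]; intro l
    rw [eventually_all]; intro i
    filter_upwards [poly_ne _ (h.ne l), eventually_cobounded_le_norm (E := ℂ) (R + 1)]
      with t ht htR h0
    apply ht
    rw [← sp_eval_eval, hfac t (by linarith)]
    exact Finset.prod_eq_zero (Finset.mem_univ i) (by rw [h0, sub_self])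
  have hdiff : ∀ l i, Tendsto (fun t => ‖y i t - (A l).eval t‖ / ‖t‖ ^ e) (cobounded ℂ)
      (𝓝 ‖(A i).leadingCoeff - (A l).leadingCoeff‖) := by
    intro l i
    refine ((hlim i).sub (lim_A h l)).norm.congr fun t => ?_
    rw [← sub_div, norm_div, norm_pow]
  have hlog : ∀ l i, ∀ᶠ t in cobounded ℂ, Real.log (‖y i t - (A l).eval t‖ / ‖t‖ ^ e) =
      Real.log ‖y i t - (A l).eval t‖ - e * Real.log ‖t‖ := by
    intro l i
    filter_upwards [hne, ne0_ev] with t ht ht0
    rw [Real.log_div, Real.log_pow]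
    · rw [norm_ne_zero_iff, sub_ne_zero]; exact ht l i
    · exact pow_ne_zero _ (norm_ne_zero_iff.2 ht0)
  have hev : ∃ R₁, R ≤ R₁ ∧ ∀ t : ℂ, R₁ < ‖t‖ → ∀ l i, y i t ≠ (A l).eval t := by
    rw [← comap_norm_atTop, eventually_comap] at hne
    obtain ⟨R0, hR0⟩ := eventually_atTop.1 hne
    exact ⟨max R R0, le_max_left _ _, fun t ht =>
      hR0 ‖t‖ (le_trans (le_max_right _ _) ht.le) t rfl⟩
  obtain ⟨R₁, hR₁, hne₁⟩ := hev
  refine ⟨R₁, hR₁, ⟨fun l i t ht => hne₁ t ht l i, ?_, ?_⟩⟩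
  · intro l
    have h1 := hdiff l l
    rw [sub_self, norm_zero] at h1
    refine Tendsto.congr' (hlog l l) ?_
    refine Real.tendsto_log_nhdsGT_zero.comp (tendsto_nhdsWithin_iff.2 ⟨h1, ?_⟩)
    filter_upwards [hne, ne0_ev] with t ht ht0
    rw [Set.mem_Ioi]
    refine div_pos (norm_pos_iff.2 (sub_ne_zero.2 (ht l l))) (pow_pos (norm_pos_iff.2 ht0) _)
  · intro l i hli
    refine ⟨Real.log ‖(A i).leadingCoeff - (A l).leadingCoeff‖, ?_⟩
    refine Tendsto.congr' (hlog l i) ?_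
    refine (hdiff l i).log ?_
    rw [norm_ne_zero_iff, sub_ne_zero]
    intro h0
    exact hli (h.inj h0).symm

end Pool.Agent.T9h22.GP
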