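import Pool.Agent.T9h22.GP.B1

/-!
# Branches at infinity: `B5`
-/

open Polynomial Filter Topology Bornology

namespace Pool.Agent.T9h22.GP

open Pool.Agent.T9h40.GP

theorem b5 : B5 := by
  intro P hP R
  -- a bound for the coefficients
  have hb : ∃ M : ℝ, 0 < M ∧ ∀ i ∈ Finset.range P.natDegree, ∀ x ∈ Metric.closedBall (0:ℂ) R,
      ‖(P.coeff i).eval x‖ ≤ M := by
    have h1 : ∀ i : ℕ, ∃ M : ℝ, 0 ≤ M ∧ ∀ x ∈ Metric.closedBall (0:ℂ) R,
        ‖(P.coeff i).eval x‖ ≤ M := by
      intro i
      obtain ⟨M, hM⟩ := (isCompact_closedBall (0:ℂ) R).exists_bound_of_continuousOn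
        (f := fun x => (P.coeff i).eval x) (P.coeff i).continuous.continuousOn
      exact ⟨max M 0, le_max_right _ _, fun x hx => (hM x hx).trans (le_max_left _ _)⟩
    choose M hM0 hM using h1
    refine ⟨∑ i ∈ Finset.range P.natDegree, M i + 1, ?_, ?_⟩
    · have := Finset.sum_nonneg (s := Finset.range P.natDegree) (f := M) fun i _ => hM0 i
      linarith
    · intro i hi x hx
      have := Finset.single_le_sum (f := M) (fun i _ => hM0 i) hi
      have h2 := hM i x hx
      linarith
  obtain ⟨M, hM0, hM⟩ := hb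
  refine ⟨max R (1 + P.natDegree * M), le_max_left _ _, ?_, ?_⟩
  · exact lt_of_lt_of_le (by positivity) (le_max_right _ _)
  intro x s hs h0
  by_contra hx
  push Not at hx
  have hx' : x ∈ Metric.closedBall (0:ℂ) R := by simpa using hx
  have hs1 : 1 + P.natDegree * M < ‖s‖ := lt_of_le_of_lt (le_max_right _ _) hs
  have hs2 : 1 < ‖s‖ := by
    have : 0 ≤ P.natDegree * M := by positivity
    linarith
  rw [← sp_eval] at h0
  have hd : (sp P x).natDegree = P.natDegree := by
    unfold sp; exact hP.natDegree_map _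
  have hc : ∀ i, (sp P x).coeff i = (P.coeff i).eval x := by
    intro i; unfold sp; rw [coeff_map, coe_evalRingHom]
  rw [eval_eq_sum_range, hd, Finset.sum_range_succ, hc, hP.coeff_natDegree, eval_one, one_mul]
    at h0
  have h1 : s ^ P.natDegree = - ∑ i ∈ Finset.range P.natDegree, (sp P x).coeff i * s ^ i := by
    linear_combination h0
  by_cases hz : P.natDegree = 0
  · rw [hz] at h1; simp at h1
  have h2 : ‖s‖ ^ P.natDegree ≤ P.natDegree * M * ‖s‖ ^ (P.natDegree - 1) := by
    rw [← norm_pow, h1, norm_neg]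
    refine (norm_sum_le _ _).trans ?_
    have : ∀ i ∈ Finset.range P.natDegree, ‖(sp P x).coeff i * s ^ i‖ ≤
        M * ‖s‖ ^ (P.natDegree - 1) := by
      intro i hi
      rw [norm_mul, norm_pow, hc]
      refine mul_le_mul (hM i hi x hx') ?_ (by positivity) hM0.le
      rw [Finset.mem_range] at hi
      exact pow_le_pow_right₀ hs2.le (by omega)
    refine (Finset.sum_le_card_nsmul _ _ _ this).trans ?_
    rw [Finset.card_range, nsmul_eq_mul]
    linarith
  have h3 : ‖s‖ ^ P.natDegree = ‖s‖ * ‖s‖ ^ (P.natDegree - 1) := by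
    rw [← pow_succ']; congr 1; omega
  rw [h3] at h2
  have h4 : 0 < ‖s‖ ^ (P.natDegree - 1) := by positivity
  have h5 := le_of_mul_le_mul_right h2 h4
  linarith

end Pool.Agent.T9h22.GP
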