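import Pool.Agent.T9h40.GP.Spec

/-!
# A logarithmic singularity
-/

open Polynomial Filter Topology Bornology

namespace Pool.Agent.T9h22.GP

open Pool.Agent.T9h40.GP

theorem loc : Loc := by
  intro L B L' B' x₁ μ hL hB heq
  have hn : Tendsto (fun t : ℂ => ‖t - x₁‖) (𝓝[≠] x₁) (𝓝[>] 0) := by
    refine tendsto_nhdsWithin_iff.2 ⟨?_, ?_⟩
    · have : Tendsto (fun t : ℂ => ‖t - x₁‖) (𝓝 x₁) (𝓝 ‖x₁ - x₁‖) :=
        (continuous_norm.comp (continuous_id.sub continuous_const)).tendsto x₁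
      rw [sub_self, norm_zero] at this
      exact this.mono_left nhdsWithin_le_nhds
    · filter_upwards [self_mem_nhdsWithin] with t ht
      exact norm_pos_iff.2 (sub_ne_zero.2 ht)
  have hlog : Tendsto (fun t : ℂ => Real.log ‖t - x₁‖) (𝓝[≠] x₁) atBot :=
    Real.tendsto_log_nhdsGT_zero.comp hn
  have hinv : Tendsto (fun t : ℂ => (Real.log ‖t - x₁‖)⁻¹) (𝓝[≠] x₁) (𝓝 0) :=
    tendsto_inv_atBot_zero.comp hlog
  have hlne : ∀ᶠ t in 𝓝[≠] x₁, Real.log ‖t - x₁‖ ≠ 0 :=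
    (hlog.eventually_lt_atBot 0).mono fun t ht => ht.ne
  have hBc : Tendsto B (𝓝[≠] x₁) (𝓝 (B x₁)) := hB.continuousAt.mono_left nhdsWithin_le_nhds
  have hLc : Tendsto L (𝓝[≠] x₁) (𝓝 (L x₁)) := hL.continuousAt.mono_left nhdsWithin_le_nhds
  -- `μ = L x₁`
  have h1 : Tendsto (fun t => L t - μ) (𝓝[≠] x₁) (𝓝 (B x₁ * 0)) := by
    refine (hBc.mul hinv).congr' ?_
    filter_upwards [heq, hlne] with t ht ht0
    rw [← ht]; field_simp
  have hμ : L x₁ - μ = 0 := by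
    have := tendsto_nhds_unique h1 (hLc.sub_const μ)
    rw [mul_zero] at this
    exact this.symm
  have hμ' : μ = L x₁ := by linarith
  refine ⟨hμ', ?_⟩
  subst hμ'
  -- `B x₁ = 0`
  have hLO : (fun t => L t - L x₁) =O[𝓝[≠] x₁] fun t => t - x₁ :=
    (hL.isBigO_sub).mono nhdsWithin_le_nhds
  have hxlog : Tendsto (fun t : ℂ => ‖t - x₁‖ * Real.log ‖t - x₁‖) (𝓝[≠] x₁) (𝓝 0) := by
    have h2 : Tendsto (fun x : ℝ => Real.log x * x) (𝓝[>] 0) (𝓝 0) := by
      simpa only [Real.rpow_one] using tendsto_log_mul_rpow_nhdsGT_zero zero_lt_one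
    exact (h2.comp hn).congr fun t => mul_comm _ _
  have hB0 : B x₁ = 0 := by
    have h3 : (fun t => (L t - L x₁) * Real.log ‖t - x₁‖) =O[𝓝[≠] x₁]
        fun t => ‖t - x₁‖ * Real.log ‖t - x₁‖ :=
      hLO.norm_right.mul (Asymptotics.isBigO_refl _ _)
    have h4 := h3.trans_tendsto hxlog
    have h5 : Tendsto B (𝓝[≠] x₁) (𝓝 0) := h4.congr' heq
    exact tendsto_nhds_unique hBc h5
  -- derivative zero
  have hBO : B =O[𝓝[≠] x₁] fun t => t - x₁ := by
    have := (hB.isBigO_sub).mono (nhdsWithin_le_nhds (s := {x₁}ᶜ))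
    refine this.congr_left fun t => ?_
    rw [hB0, sub_zero]
  have hinvo : (fun t : ℂ => (Real.log ‖t - x₁‖)⁻¹) =o[𝓝[≠] x₁] (fun _ => (1:ℝ)) :=
    (Asymptotics.isLittleO_one_iff ℝ).2 hinv
  have h6 : (fun t => L t - L x₁) =o[𝓝[≠] x₁] fun t => t - x₁ := by
    have h7 := hBO.norm_right.mul_isLittleO hinvo
    simp only [mul_one] at h7
    refine (h7.congr' ?_ EventuallyEq.rfl).of_norm_right
    filter_upwards [heq, hlne] with t ht ht0
    rw [← ht]; field_simp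
  have h8 : (fun t => L t - L x₁) =o[𝓝 x₁] fun t => t - x₁ := by
    rw [← nhdsNE_sup_pure x₁]
    refine h6.sup ?_
    rw [Asymptotics.isLittleO_pure]
    simp
  have h9 : HasFDerivAt L (0 : ℂ →L[ℝ] ℝ) x₁ := by
    refine HasFDerivAt.of_isLittleO ?_
    refine h8.congr_left fun t => ?_
    simp
  exact hL.unique h9

end Pool.Agent.T9h22.GP
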