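import Pool.Agent.T9h22.GP.K1

/-!
# The key lemma near one point
-/

open Polynomial Filter Topology Bornology

namespace Pool.Agent.T9h22.GP

open Pool.Agent.T9h40.GP

theorem diff_log (w : ℂ → ℂ) (q : ℂ) (hw : DifferentiableAt ℂ w q) (h0 : w q ≠ 0) :
    DifferentiableAt ℝ (fun t => Real.log ‖w t‖) q := by
  have h1 : DifferentiableAt ℝ w q := hw.restrictScalars ℝ
  have h2 : DifferentiableAt ℝ (fun t => ‖w t‖) q := h1.norm ℝ h0
  exact h2.log (norm_ne_zero_iff.2 h0)

theorem keyLoc : KeyLoc := by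
  intro n P R R' y hBr L G s μ hs hL hG hid q hq j hj
  have hq0 : evalEval q s P = 0 := by
    unfold rts at hq
    rw [Multiset.mem_toFinset, mem_roots'] at hq
    exact hq.2
  have hqR : R < ‖q‖ := hBr.far q s hs hq0
  have hopen : IsOpen {t : ℂ | R < ‖t‖} := isOpen_lt continuous_const continuous_norm
  have hnear : ∀ᶠ t in 𝓝 q, R < ‖t‖ := hopen.mem_nhds hqR
  have hyd : ∀ i, DifferentiableAt ℂ (y i) q := fun i =>
    (hBr.diff i).differentiableAt (hopen.mem_nhds hqR)
  have hne : ∀ i, i ≠ j → y i q ≠ s := by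
    intro i hi h0
    exact hi (hBr.inj q hqR (by simp only [h0, hj]))
  -- the factorisation
  set h : ℂ → ℂ := dslope (y j) q with hh
  have hhd : DifferentiableAt ℂ h q := by
    have h1 : DifferentiableOn ℂ h {t : ℂ | R < ‖t‖} :=
      (Complex.differentiableOn_dslope (hopen.mem_nhds hqR)).2 (hBr.diff j)
    exact h1.differentiableAt (hopen.mem_nhds hqR)
  have hhq : h q ≠ 0 := by
    rw [hh, dslope_same]; exact hBr.der j q hqR
  have hfac : ∀ t, y j t - s = (t - q) * h t := by
    intro t
    have h1 := sub_smul_dslope (y j) q t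
    rw [smul_eq_mul, hj] at h1
    exact h1.symm
  have hhne : ∀ᶠ t in 𝓝 q, h t ≠ 0 := hhd.continuousAt.eventually_ne hhq
  have hine : ∀ᶠ t in 𝓝 q, ∀ i, i ≠ j → y i t ≠ s := by
    rw [eventually_all]; intro i
    by_cases hi : i = j
    · exact Eventually.of_forall fun t h => absurd hi h
    · filter_upwards [(hyd i).continuousAt.eventually_ne (hne i hi)] with t ht _ using ht
  set B : ℂ → ℝ := fun t => G t - ∑ i ∈ Finset.univ.erase j, L i t * Real.log ‖y i t - s‖
    - L j t * Real.log ‖h t‖ + ∑ p ∈ (rts P s).erase q, μ p * Real.log ‖p - t‖ with hB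
  have hBd : DifferentiableAt ℝ B q := by
    refine DifferentiableAt.add (DifferentiableAt.sub (DifferentiableAt.sub (hG q hqR) ?_) ?_) ?_
    · refine DifferentiableAt.fun_sum fun i hi => ?_
      rw [Finset.mem_erase] at hi
      refine (hL i q hqR).mul (diff_log (fun t => y i t - s) q ((hyd i).sub_const s) ?_)
      exact sub_ne_zero.2 (hne i hi.1)
    · exact (hL j q hqR).mul (diff_log h q hhd hhq)
    · refine DifferentiableAt.fun_sum fun p hp => ?_
      rw [Finset.mem_erase] at hp
      refine (differentiableAt_const _).mul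
        (diff_log (fun t => p - t) q (differentiableAt_id.const_sub p) ?_)
      exact sub_ne_zero.2 hp.1
  have key : ∀ᶠ t in 𝓝[≠] q, (L j t - μ q) * Real.log ‖t - q‖ = B t := by
    have h1 := (hnear.and (hhne.and hine)).filter_mono (nhdsWithin_le_nhds (s := {q}ᶜ))
    filter_upwards [h1, self_mem_nhdsWithin] with t ht htq
    obtain ⟨htR, hht, hti⟩ := ht
    have htq' : t - q ≠ 0 := sub_ne_zero.2 htq
    have hev : evalEval t s P ≠ 0 := by
      rw [hBr.fac t htR s, Finset.prod_ne_zero_iff]
      intro i _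
      by_cases hi : i = j
      · rw [hi, ← neg_sub, neg_ne_zero, hfac]
        exact mul_ne_zero htq' hht
      · exact sub_ne_zero.2 (hti i hi).symm
    have h2 := hid t htR hev
    rw [← Finset.add_sum_erase _ _ (Finset.mem_univ j), ← Finset.add_sum_erase _ _ hq] at h2
    have h3 : Real.log ‖y j t - s‖ = Real.log ‖t - q‖ + Real.log ‖h t‖ := by
      rw [hfac, norm_mul, Real.log_mul (norm_ne_zero_iff.2 htq') (norm_ne_zero_iff.2 hht)]
    rw [h3, norm_sub_rev q t] at h2
    simp only [hB]
    linear_combination h2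
  have := loc (L j) B (fderiv ℝ (L j) q) (fderiv ℝ B q) q (μ q) (hL j q hqR).hasFDerivAt
    hBd.hasFDerivAt key
  exact this

end Pool.Agent.T9h22.GP
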